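import Pool.Agent.H.MP_977251_co.Op

set_option autoImplicit false
open Polynomial Pool.Agent.Lib.helper5.Stab Equiv Finset

namespace Pool.Agent.H.MP_977251_co

def des {n : ℕ} (π : Perm (Fin n)) : ℕ :=
  ((Finset.univ : Finset (Fin n × Fin n)).filter
    (fun p => p.2.val = p.1.val + 1 ∧ π p.2 < π p.1)).card

theorem des_eq {n : ℕ} (π : Perm (Fin (n + 1))) :
    des π = ∑ i : Fin n, if π i.succ < π i.castSucc then 1 else 0 := by
  rw [← Finset.card_filter]
  symm
  apply Finset.card_bij (fun i _ => (i.castSucc, i.succ))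
  · intro i hi
    simpa using hi
  · intro a _ b _ h
    simpa using congrArg Prod.snd h
  · rintro ⟨a, b⟩ h
    simp only [mem_filter, mem_univ, true_and] at h
    have hb := b.isLt
    refine ⟨⟨a.val, by omega⟩, ?_, ?_⟩
    · simp only [mem_filter, mem_univ, true_and]
      convert h.2 using 2
      · ext
        simp [h.1]
      · rfl
    · ext
      · simp
      · simp [h.1]

def ins {n : ℕ} (j : Fin (n + 1)) (σ : Perm (Fin n)) : Perm (Fin (n + 1)) :=
  (Fin.cycleRange j).symm * Perm.decomposeFin.symm (0, σ)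

theorem ins_zero {n : ℕ} (j : Fin (n + 1)) (σ : Perm (Fin n)) : ins j σ 0 = j := by
  simp [ins]

theorem ins_succ {n : ℕ} (j : Fin (n + 1)) (σ : Perm (Fin n)) (i : Fin n) :
    ins j σ i.succ = j.succAbove (σ i) := by
  simp [ins]

theorem sign_ins {n : ℕ} (j : Fin (n + 1)) (σ : Perm (Fin n)) :
    Perm.sign (ins j σ) = (-1) ^ (j : ℕ) * Perm.sign σ := by
  simp [ins, Perm.decomposeFin.symm_sign]

theorem ins_bij (n : ℕ) :
    Function.Bijective (fun p : Fin (n + 1) × Perm (Fin n) => ins p.1 p.2) := by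
  rw [Fintype.bijective_iff_injective_and_card]
  constructor
  · rintro ⟨a, s⟩ ⟨b, t⟩ h
    have h' : ins a s = ins b t := h
    have hab : a = b := by rw [← ins_zero a s, h', ins_zero]
    subst hab
    have : s = t := by
      ext i
      have h2 : ins a s i.succ = ins a t i.succ := by rw [h']
      rw [ins_succ, ins_succ] at h2
      rw [Fin.succAbove_right_injective h2]
    rw [this]
  · simp [Fintype.card_perm, Nat.factorial_succ]

theorem des_ins {n : ℕ} (j : Fin (n + 2)) (σ : Perm (Fin (n + 1))) :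
    des (ins j σ) = (if (σ 0 : ℕ) < j then 1 else 0) + des σ := by
  rw [des_eq, des_eq, Fin.sum_univ_succ]
  congr 1
  · rw [ins_succ, Fin.castSucc_zero, ins_zero]
    simp only [Fin.succAbove_lt_iff_castSucc_lt]
    rfl
  · apply Finset.sum_congr rfl
    intro i _
    rw [ins_succ, ← Fin.succ_castSucc, ins_succ]
    simp only [Fin.succAbove_lt_succAbove_iff]

noncomputable def wt (ε : ℝ) (s : ℤˣ) : ℝ := if s = 1 then 1 else ε

theorem wt_mul (ε : ℝ) (hε : ε ^ 2 = 1) (j : ℕ) (s : ℤˣ) :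
    wt ε ((-1) ^ j * s) = ε ^ j * wt ε s := by
  induction j with
  | zero => simp
  | succ j ih =>
    have : ∀ u : ℤˣ, wt ε (-u) = ε * wt ε u := by
      intro u
      rcases Int.units_eq_one_or u with rfl | rfl
      · simp [wt]
      · simp [wt]
        linear_combination -hε
    rw [pow_succ', mul_assoc, neg_one_mul, this, ih]
    ring

noncomputable def V (ε : ℝ) (t : ℂ) (n : ℕ) (j : Fin (n + 1)) : ℂ :=
  ∑ σ : Perm (Fin n), (wt ε (Perm.sign σ) : ℂ) * t ^ des (ins j σ)

theorem V_succ (ε : ℝ) (hε : ε ^ 2 = 1) (t : ℂ) (n : ℕ) (j : Fin (n + 2)) :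
    V ε t (n + 1) j =
      ∑ i : Fin (n + 1), (if (i : ℕ) < j then t else 1) * ((ε : ℂ) ^ (i : ℕ) * V ε t n i) := by
  unfold V
  rw [← (ins_bij n).sum_comp, Fintype.sum_prod_type]
  apply Finset.sum_congr rfl
  intro i _
  rw [Finset.mul_sum, Finset.mul_sum]
  apply Finset.sum_congr rfl
  intro τ _
  simp only
  rw [des_ins, ins_zero, sign_ins, wt_mul ε hε, pow_add]
  push_cast
  split_ifs <;> ring

noncomputable def Ph (c : ℝ[X]) (y : ℂ) : ℂ := (aeval th c (X + 1)).eval y

theorem Ph_sub (a b : ℝ[X]) (y : ℂ) : Ph (a - b) y = Ph a y - Ph b y := by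
  simp [Ph]

theorem Ph_add (a b : ℝ[X]) (y : ℂ) : Ph (a + b) y = Ph a y + Ph b y := by
  simp [Ph]

theorem Ph_C_mul (a : ℝ) (b : ℝ[X]) (y : ℂ) : Ph (C a * b) y = a * Ph b y := by
  simp [Ph, Module.algebraMap_end_apply]
  ring

theorem main_rec (ε : ℝ) (hε : ε ^ 2 = 1) (v : ℕ → ℕ → ℝ[X]) (h0 : v 0 0 = 1)
    (h1 : ∀ n j, j ≤ n → v (n + 1) j - v (n + 1) (j + 1) = C (ε ^ j) * v n j)
    (h2 : ∀ n, ∃ e, v (n + 1) (n + 1) = X ^ (e + 1) ∧ v (n + 1) 0 = (X + 1) ^ (e + 1))
    (t : ℂ) (ht : t ≠ 1) (n : ℕ) :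
    ∀ j : Fin (n + 1), V ε t n j = (1 - t) ^ (n + 1) * Ph (v n j) (t / (1 - t)) := by
  have ht' : 1 - t ≠ 0 := sub_ne_zero.2 ht.symm
  induction n with
  | zero =>
    intro j
    have hj : (j : ℕ) = 0 := by omega
    rw [hj, h0]
    have hd : ∀ π : Perm (Fin (0 + 1)), des π = 0 := by
      intro π
      rw [des_eq]
      simp
    simp [V, hd, wt, Ph]
    field_simp
    ring
  | succ n ih =>
    intro j
    rw [V_succ ε hε]
    set y := t / (1 - t) with hy
    set F : ℕ → ℂ := fun i => Ph (v (n + 1) i) y with hF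
    have e1 : ∀ i : Fin (n + 1), (ε : ℂ) ^ (i : ℕ) * V ε t n i =
        (1 - t) ^ (n + 1) * (F i - F (i + 1)) := by
      intro i
      rw [ih i, hF]
      simp only
      rw [← Ph_sub, h1 n i (by omega), Ph_C_mul]
      push_cast
      ring
    simp only [e1]
    rw [Fin.sum_univ_eq_sum_range
      (fun i => (if i < (j : ℕ) then t else 1) * ((1 - t) ^ (n + 1) * (F i - F (i + 1)))) (n + 1)]
    have hj : (j : ℕ) ≤ n + 1 := by omega
    rw [← Finset.sum_range_add_sum_Ico _ hj]
    have s1 : ∑ i ∈ range j, (if i < (j : ℕ) then t else 1) * ((1 - t) ^ (n + 1) * (F i - F (i + 1)))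
        = t * (1 - t) ^ (n + 1) * (F 0 - F j) := by
      rw [← Finset.sum_range_sub' F, Finset.mul_sum]
      apply Finset.sum_congr rfl
      intro i hi
      rw [if_pos (mem_range.1 hi)]
      ring
    have s2 : ∑ i ∈ Ico (j : ℕ) (n + 1),
        (if i < (j : ℕ) then t else 1) * ((1 - t) ^ (n + 1) * (F i - F (i + 1)))
        = (1 - t) ^ (n + 1) * (F j - F (n + 1)) := by
      have : ∑ i ∈ Ico (j : ℕ) (n + 1), (F i - F (i + 1)) = F j - F (n + 1) := by
        have a1 := Finset.sum_range_add_sum_Ico (fun i => F i - F (i + 1)) hj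
        rw [Finset.sum_range_sub' F, Finset.sum_range_sub' F] at a1
        linear_combination a1
      rw [← this, Finset.mul_sum]
      apply Finset.sum_congr rfl
      intro i hi
      rw [if_neg (by have := (mem_Ico.1 hi).1; omega)]
      ring
    rw [s1, s2]
    obtain ⟨e, he1, he2⟩ := h2 n
    have sh := congrArg (eval y) (shift e)
    simp only [eval_mul, eval_add, eval_X, eval_one] at sh
    have sh' : (y + 1) * F (n + 1) = y * F 0 := by
      rw [hF]
      simp only
      rw [he1, he2]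
      exact sh
    have y1 : y * (1 - t) = t := by
      rw [hy]
      field_simp
    change _ = (1 - t) ^ (n + 1 + 1) * F j
    rw [pow_succ (1 - t) (n + 1)]
    linear_combination (1 - t) ^ (n + 1) * (-(1 - t) * sh' + (F (n + 1) - F 0) * y1)

noncomputable def A (ε : ℝ) (t : ℂ) (n : ℕ) : ℂ :=
  ∑ σ : Perm (Fin n), (wt ε (Perm.sign σ) : ℂ) * t ^ des σ

theorem V_last (ε : ℝ) (t : ℂ) (n : ℕ) : V ε t (n + 1) (Fin.last (n + 1)) = t * A ε t (n + 1) := by
  unfold V A
  rw [Finset.mul_sum]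
  apply Finset.sum_congr rfl
  intro σ _
  rw [des_ins, if_pos (by simpa using (σ 0).is_le), pow_add]
  ring

theorem A_pos (t : ℂ) (ht : t ≠ 1) (n : ℕ) :
    t * A 1 t (n + 1) = (1 - t) ^ (n + 2) * Ph (X ^ (n + 1)) (t / (1 - t)) := by
  rw [← V_last, main_rec 1 (by norm_num) (fun n j => X ^ j * (X + 1) ^ (n - j)) (by simp) ?_ ?_ t ht]
  · simp
  · intro n j hj
    obtain ⟨k, rfl⟩ := Nat.exists_eq_add_of_le hj
    simp only [show j + k + 1 - j = k + 1 by omega, show j + k + 1 - (j + 1) = k by omega,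
      show j + k - j = k by omega, one_pow, C_1]
    ring
  · intro n
    exact ⟨n, by simp, by simp⟩

theorem A_neg (t : ℂ) (ht : t ≠ 1) (n : ℕ) :
    t * A (-1) t (n + 1) = (1 - t) ^ (n + 2) * Ph (X ^ ((n + 2) / 2)) (t / (1 - t)) := by
  rw [← V_last, main_rec (-1) (by norm_num)
    (fun n j => if j % 2 = 1 ∧ n % 2 = 0 then 0 else X ^ ((j + 1) / 2) * (X + 1) ^ ((n - j + 1) / 2))
    (by simp) ?_ ?_ t ht]
  · simp only [Fin.val_last]
    rw [if_neg (by omega), show (n + 1 + 1) / 2 = (n + 2) / 2 by omega]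
    simp
  · intro n j hj
    obtain ⟨k, rfl⟩ := Nat.exists_eq_add_of_le hj
    simp only [show j + k + 1 - j = k + 1 by omega, show j + k + 1 - (j + 1) = k by omega,
      show j + k - j = k by omega]
    rcases Nat.even_or_odd' j with ⟨a, rfl | rfl⟩ <;> rcases Nat.even_or_odd' k with ⟨b, rfl | rfl⟩
    · rw [if_neg (by omega), if_neg (by omega), if_neg (by omega)]
      simp only [show (2 * a + 1) / 2 = a by omega, show (2 * b + 1 + 1) / 2 = b + 1 by omega,
        show (2 * a + 1 + 1) / 2 = a + 1 by omega, show (2 * b + 1) / 2 = b by omega, pow_mul]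
      simp
      ring
    · rw [if_neg (by omega), if_pos (by omega), if_neg (by omega)]
      simp only [show (2 * a + 1) / 2 = a by omega, show (2 * b + 1 + 1 + 1) / 2 = b + 1 by omega,
        show (2 * b + 1 + 1) / 2 = b + 1 by omega, pow_mul]
      simp
    · rw [if_pos (by omega), if_neg (by omega), if_neg (by omega)]
      simp only [show (2 * a + 1 + 1 + 1) / 2 = a + 1 by omega,
        show (2 * a + 1 + 1) / 2 = a + 1 by omega, show (2 * b + 1) / 2 = b by omega, pow_succ,
        pow_mul]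
      simp
    · rw [if_neg (by omega), if_neg (by omega), if_pos (by omega)]
      simp only [show (2 * a + 1 + 1 + 1) / 2 = a + 1 by omega,
        show (2 * a + 1 + 1) / 2 = a + 1 by omega, show (2 * b + 1 + 1 + 1) / 2 = b + 1 by omega,
        show (2 * b + 1 + 1) / 2 = b + 1 by omega]
      simp
  · intro n
    refine ⟨n / 2, ?_, ?_⟩
    · rw [if_neg (by omega), show (n + 1 + 1) / 2 = n / 2 + 1 by omega]
      simp
    · rw [if_neg (by omega), show (n + 1 - 0 + 1) / 2 = n / 2 + 1 by omega]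
      simp

theorem upper (n : ℕ) (hn : 2 ≤ n) (s : ℤˣ) (z : ℂ) (hz : 0 < z.im) :
    ∑ π ∈ (Finset.univ : Finset (Perm (Fin n))).filter (fun π => Perm.sign π = s),
      z ^ des π ≠ 0 := by
  intro h
  obtain ⟨m, rfl⟩ : ∃ m, n = m + 1 := ⟨n - 1, by omega⟩
  have hz1 : z ≠ 1 := by
    rintro rfl
    simp at hz
  have hz1' : 1 - z ≠ 0 := sub_ne_zero.2 hz1.symm
  have e : A 1 z (m + 1) + (((s : ℤ) : ℝ) : ℂ) * A (-1) z (m + 1) =
      2 * ∑ π ∈ (Finset.univ : Finset (Perm (Fin (m + 1)))).filter (fun π => Perm.sign π = s),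
      z ^ des π := by
    unfold A
    rw [Finset.sum_filter, Finset.mul_sum, Finset.mul_sum, ← Finset.sum_add_distrib]
    apply Finset.sum_congr rfl
    intro π _
    rcases Int.units_eq_one_or s with rfl | rfl <;>
      rcases Int.units_eq_one_or (Perm.sign π) with h | h <;> simp [h, wt] <;> ring
  rw [h, mul_zero] at e
  have hy : 0 < (z / (1 - z)).im := by
    have : z / (1 - z) = 1 / (1 - z) - 1 := by
      field_simp
      ring
    have h2 : (1 / (z - 1)).im < 0 := inv_im_neg (by simpa using hz)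
    have h3 : 1 / (1 - z) = -(1 / (z - 1)) := by
      rw [← neg_sub, one_div, one_div, inv_neg]
    rw [this, h3]
    simp only [Complex.sub_im, Complex.neg_im, Complex.one_im]
    linarith
  have hf := good_final ((m + 1) / 2) ((m + 1) % 2) (by omega) ((s : ℤ) : ℝ)
    (by rcases Int.units_eq_one_or s with rfl | rfl <;> simp) _ hy
  apply hf
  rw [show 2 * ((m + 1) / 2) + (m + 1) % 2 = m + 1 by omega,
    show (m + 1) / 2 + (m + 1) % 2 = (m + 2) / 2 by omega]
  change Ph _ _ = 0
  rw [Ph_add, Ph_C_mul]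
  apply mul_left_cancel₀ (pow_ne_zero (m + 2) hz1')
  linear_combination z * e - A_pos z hz1 m - (((s : ℤ) : ℝ) : ℂ) * A_neg z hz1 m

end Pool.Agent.H.MP_977251_co
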