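import Pool.Agent.Lib.helper5.Stab

set_option autoImplicit false
open Polynomial Pool.Agent.Lib.helper5.Stab

namespace Pool.Agent.H.MP_977251_co

noncomputable def th : Module.End ℝ ℂ[X] where
  toFun G := X * (X + 1) * derivative G
  map_add' := by
    intro a b
    simp [mul_add]
  map_smul' := by
    intro a b
    simp

theorem th_apply (G : ℂ[X]) : th G = X * (X + 1) * derivative G := rfl

def Good (G : ℂ[X]) : Prop := NU G ∧ NU (derivative G)

theorem good_of {H : ℂ[X]} (h : NU H) (h0 : H.eval 0 = 0) : Good H :=
  ⟨h, h.der (der_ne_zero_of_eval_zero h.ne_zero h0)⟩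

theorem ne0 {y : ℂ} (hy : 0 < y.im) : y ≠ 0 := by
  rintro rfl
  simp at hy

theorem ne1 {y : ℂ} (hy : 0 < y.im) : y + 1 ≠ 0 := ne0 (by simpa using hy)

theorem good_th {G : ℂ[X]} (h : Good G) : Good (th G) := by
  apply good_of
  · intro y hy
    simp [th_apply, ne0 hy, ne1 hy, h.2 y hy]
  · simp [th_apply]

theorem good_plus {G : ℂ[X]} (h : Good G) : Good (th (th G) + th G) := by
  apply good_of
  · intro y hy
    have h1 : (1 / y).im < 0 := inv_im_neg hy
    have h2 : (2 * (1 / y)).im ≤ 0 := by
      simp only [Complex.mul_im, Complex.re_ofNat, Complex.im_ofNat]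
      linarith
    have h3 := h.2.step h2 (Or.inr (by simp [ne0 hy])) y hy
    intro h4
    apply h3
    have hy0 := ne0 hy
    have hy1 := ne1 hy
    simp only [th_apply, derivative_mul, derivative_add, derivative_X, derivative_one, eval_add,
      eval_mul, eval_X, eval_one, eval_C, eval_zero] at h4 ⊢
    have : y * (y + 1) ^ 2 ≠ 0 := by simp [hy0, hy1]
    field_simp
    apply mul_left_cancel₀ this
    linear_combination h4
  · simp [th_apply]

theorem good_minus {G : ℂ[X]} (h : Good G) : Good (th (th G) - th G) := by
  apply good_of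
  · intro y hy
    have h1 : (1 / (y + 1)).im < 0 := inv_im_neg (by simpa using hy)
    have h2 : (2 * (1 / (y + 1))).im ≤ 0 := by
      simp only [Complex.mul_im, Complex.re_ofNat, Complex.im_ofNat]
      linarith
    have h3 := h.2.step h2 (Or.inr (by simp [ne1 hy])) y hy
    intro h4
    apply h3
    have hy0 := ne0 hy
    have hy1 := ne1 hy
    simp only [th_apply, derivative_mul, derivative_add, derivative_X, derivative_one, eval_add,
      eval_mul, eval_X, eval_one, eval_C, eval_zero, eval_sub] at h4 ⊢
    have : y ^ 2 * (y + 1) ≠ 0 := by simp [hy0, hy1]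
    field_simp
    apply mul_left_cancel₀ this
    linear_combination h4
  · simp [th_apply]

theorem conv_im {y : ℂ} (hy : 0 < y.im) {s : ℝ} (h1 : -1 ≤ s) (h2 : s ≤ 1) :
    ((2 * y + 1 - s) / (2 * (y * (y + 1)))).im < 0 := by
  have hy0 := ne0 hy
  have hy1 := ne1 hy
  have e : (2 * y + 1 - s) / (2 * (y * (y + 1))) =
      (((1 - s) / 2 : ℝ) : ℂ) * (1 / y) + (((1 + s) / 2 : ℝ) : ℂ) * (1 / (y + 1)) := by
    push_cast
    field_simp
    ring
  have a1 : (1 / y).im < 0 := inv_im_neg hy
  have a2 : (1 / (y + 1)).im < 0 := inv_im_neg (by simpa using hy)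
  rw [e, Complex.add_im, Complex.im_ofReal_mul, Complex.im_ofReal_mul]
  rcases h2.eq_or_lt with rfl | h3
  · simpa using a2
  · nlinarith

theorem good_quad {G : ℂ[X]} (h : Good G) {c : ℝ} (h1 : -1 ≤ c) (h2 : c ≤ 1) :
    Good (th (th (th (th G))) - C ((2 * c : ℝ) : ℂ) * th (th (th G)) + th (th G)) := by
  apply good_of
  · intro y hy
    have hy0 := ne0 hy
    have hy1 := ne1 hy
    set s : ℝ := Real.sqrt (1 / 3) with hs
    have hs2 : s ^ 2 = 1 / 3 := Real.sq_sqrt (by norm_num)
    have hs0 : 0 ≤ s := Real.sqrt_nonneg _
    have hs1 : s ≤ 1 := by nlinarith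
    have hs2' : (s : ℂ) ^ 2 = 1 / 3 := by
      rw [← Complex.ofReal_pow, hs2]
      push_cast
      rfl
    have u1 := conv_im hy (s := s) (by linarith) hs1
    have u2 := conv_im hy (s := -s) (by linarith) (by linarith)
    have u3 := conv_im hy h1 h2
    have n1 : ∀ u : ℂ, u.im < 0 → u ≠ 0 := by
      rintro u hu rfl
      simp at hu
    have h3 := cubic_op h.2 _ _ _
      (mul_ne_zero (by norm_num) (mul_ne_zero (mul_ne_zero (n1 _ u1) (n1 _ u2)) (n1 _ u3)))
      (laguerre3 u1 u2 u3) y hy
    intro h4
    apply h3
    simp only [th_apply, derivative_mul, derivative_add, derivative_X, derivative_one, eval_add,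
      eval_mul, eval_X, eval_one, eval_C, eval_zero, eval_sub, derivative_zero] at h4 ⊢
    have : y * (y + 1) ≠ 0 := by simp [hy0, hy1]
    push_cast at h4 ⊢
    field_simp
    apply mul_left_cancel₀ this
    linear_combination (exp := 1) 8 * h4 - 
      (24 * y ^ 2 * (y + 1) ^ 2 * eval y (derivative (derivative G)) + 24 * y * (y + 1) * (2 * y + 1 - c) * eval y (derivative G)) * hs2'
  · simp [th_apply]

theorem good_smul {G : ℂ[X]} (h : Good G) {a : ℝ} (ha : a ≠ 0) : Good (a • G) := by
  have e : ∀ H : ℂ[X], a • H = C (a : ℂ) * H := by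
    intro H
    rw [← smul_eq_C_mul]
    rfl
  constructor
  · rw [e]
    exact h.1.C_mul (by simpa using ha)
  · rw [derivative_smul, e]
    exact h.2.C_mul (by simpa using ha)

theorem good_circle (d : ℕ) : ∀ (r : ℝ[X]), r.natDegree = d → r ≠ 0 →
    (∀ z : ℂ, aeval z r = 0 → ‖z‖ = 1) → ∀ G, Good G → Good (aeval th (X ^ d * r) G) := by
  induction d using Nat.strong_induction_on with
  | _ d ih =>
    intro r hd hr hz G hG
    by_cases h0 : d = 0
    · subst h0
      rw [eq_C_of_natDegree_eq_zero hd] at hr ⊢
      simp only [pow_zero, one_mul, aeval_C, Module.algebraMap_end_apply]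
      exact good_smul hG (by simpa using hr)
    · have hdeg : r.degree ≠ 0 := by
        intro h
        exact h0 (hd ▸ natDegree_eq_zero_iff_degree_le_zero.2 h.le)
      obtain ⟨z, hz0⟩ := IsAlgClosed.exists_aeval_eq_zero ℂ r hdeg
      have hn := hz z hz0
      by_cases him : z.im = 0
      · have hzr : z = (z.re : ℂ) := by
          apply Complex.ext <;> simp [him]
        have hroot : r.IsRoot z.re := by
          rw [hzr] at hz0
          have := aeval_algebraMap_apply ℂ z.re r
          simp only [Complex.coe_algebraMap, coe_aeval_eq_eval] at this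
          rw [this] at hz0
          exact_mod_cast hz0
        obtain ⟨q, hq⟩ := dvd_iff_isRoot.2 hroot
        have hq0 : q ≠ 0 := by
          rintro rfl
          simp [hr] at hq
        have hdq : d = q.natDegree + 1 := by
          rw [← hd, hq, natDegree_mul (X_sub_C_ne_zero _) hq0, natDegree_X_sub_C]
          ring
        have hG' := ih q.natDegree (by omega) q rfl hq0
          (fun w hw => hz w (by rw [hq, map_mul, hw, mul_zero])) G hG
        have e : X ^ d * r = (X * X - C z.re * X) * (X ^ q.natDegree * q) := by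
          rw [hdq]
          nth_rewrite 1 [hq]
          ring
        have habs : |z.re| = 1 := by
          rw [hzr] at hn
          simpa using hn
        rw [e, map_mul, Module.End.mul_apply]
        rcases abs_eq (by norm_num : (0 : ℝ) ≤ 1) |>.1 habs with h1 | h1
        · rw [h1]
          simpa using good_minus hG'
        · rw [h1]
          simpa using good_plus hG'
      · obtain ⟨q, hq⟩ := r.quadratic_dvd_of_aeval_eq_zero_im_ne_zero hz0 him
        rw [hn] at hq
        have hq0 : q ≠ 0 := by
          rintro rfl
          simp [hr] at hq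
        have hm : (X ^ 2 - C (2 * z.re) * X + C ((1 : ℝ) ^ 2) : ℝ[X]).natDegree = 2 := by
          compute_degree!
        have hdq : d = q.natDegree + 2 := by
          rw [← hd, hq, natDegree_mul _ hq0, hm]
          · ring
          · intro h
            rw [h] at hm
            simp at hm
        have hG' := ih q.natDegree (by omega) q rfl hq0
          (fun w hw => hz w (by rw [hq, map_mul, hw, mul_zero])) G hG
        have e : X ^ d * r = (X * X * X * X - C (2 * z.re) * (X * X * X) + X * X)
            * (X ^ q.natDegree * q) := by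
          rw [hdq]
          nth_rewrite 1 [hq]
          simp only [one_pow, C_1]
          ring
        have habs : |z.re| ≤ 1 := hn ▸ Complex.abs_re_le_norm z
        rw [e, map_mul, Module.End.mul_apply]
        have := good_quad hG' (abs_le.1 habs).1 (abs_le.1 habs).2
        convert this using 1
        simp only [map_add, map_sub, map_mul, aeval_X, aeval_C, LinearMap.add_apply,
          LinearMap.sub_apply, Module.End.mul_apply, Module.algebraMap_end_apply]
        rw [← smul_eq_C_mul, smul_smul]
        rfl

theorem good_base : Good (X + 1) := by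
  constructor
  · intro y hy
    simpa using ne1 hy
  · intro y _
    simp

theorem good_final (j e : ℕ) (hj : 1 ≤ j) (s : ℝ) (hs : s = 1 ∨ s = -1) :
    NU (aeval th (X ^ (2 * j + e) + C s * X ^ (j + e) : ℝ[X]) (X + 1)) := by
  have hdeg : (X ^ j + C s : ℝ[X]).natDegree = j := natDegree_X_pow_add_C
  have h1 := good_circle j (X ^ j + C s) hdeg (X_pow_add_C_ne_zero (by omega) _) (by
    intro z hz
    simp only [map_add, map_pow, aeval_X, aeval_C, Complex.coe_algebraMap] at hz
    have h2 : ‖z‖ ^ j = 1 := by
      rw [← norm_pow, eq_neg_of_add_eq_zero_left hz]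
      rcases hs with rfl | rfl <;> simp
    exact (pow_eq_one_iff_of_nonneg (norm_nonneg _) (by omega)).1 h2) _ good_base
  have h2 : ∀ e : ℕ, Good (aeval th (X ^ e * (X ^ j * (X ^ j + C s)) : ℝ[X]) (X + 1)) := by
    intro e
    induction e with
    | zero => simpa using h1
    | succ e ih =>
      rw [pow_succ', mul_assoc, map_mul, Module.End.mul_apply, aeval_X]
      exact good_th ih
  have := (h2 e).1
  convert this using 3
  ring

theorem shift (e : ℕ) :
    (X + 1) * aeval th (X ^ (e + 1) : ℝ[X]) (X + 1) =
      X * aeval th ((X + 1) ^ (e + 1) : ℝ[X]) (X + 1) := by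
  induction e with
  | zero =>
    simp [th_apply]
    ring
  | succ e ih =>
    rw [pow_succ' (X : ℝ[X]) (e + 1), pow_succ' (X + 1 : ℝ[X]) (e + 1), map_mul, map_mul,
      Module.End.mul_apply, Module.End.mul_apply]
    generalize aeval th (X ^ (e + 1) : ℝ[X]) (X + 1) = P at ih ⊢
    generalize aeval th ((X + 1) ^ (e + 1) : ℝ[X]) (X + 1) = Q at ih ⊢
    have h := congrArg derivative ih
    simp only [derivative_mul, derivative_add, derivative_X, derivative_one, add_zero,
      one_mul] at h
    simp only [map_add, aeval_X, map_one, LinearMap.add_apply, th_apply, Module.End.one_apply]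
    linear_combination X * (X + 1) * h - X * ih

end Pool.Agent.H.MP_977251_co
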